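import Pool.Agent.P8H64.GH.Wet

set_option autoImplicit false

/-!
# Finite generation of Weil-étale motivic cohomology in bounded dimension (MP_cb388a_ag, Q1)

Definitions: `hypS` (the hypersurface `T(x, y, z) = 1` of a trilinear form `T`) is in
`Pool/Agent/Y116/UV/Defs.lean`; `bilS` (the system of the bilinear equations `∑ T_{ijl} x_i y_j = 0`) in
`Pool/Agent/Q282/UK/Bil.lean`; `DimAll`, `DimSmooth`, `ForTri`, `ForBlock`, `ForBil` in
`Pool/Agent/P8H64/GH/Dims.lean`; `WThy` (Weil-étale motivic Borel-Moore homology, with the known properties
which are used) and `WThy.Fin` in `Pool/Agent/P8H64/GH/Wet.lean`.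

`T.Fin X` says that all groups `H_i^W(X, ℤ[1/p](j))` are finitely generated over `ℤ[1/p]`; for smooth projective
`X` these are the groups `H^i_W(X, ℤ(n)) ⊗ ℤ[1/p]` of the question.

The theorem: for every finite field `k` and every `d`, finite generation for all separated schemes of
dimension at most `d` over `k` is equivalent to finite generation for the smooth affine hypersurfaces
`T(x, y, z) = 1`, where `T` is a trilinear form over `k` with `d + 2` variables `z` and any numbers of
variables `x` and `y`; it implies finite generation for all systems of bilinear equations with at most `d + 2`
variables `x`, or at most `d + 2` variables `y`, or at most `d + 2` equations. As the case `d = 1` is known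
(Lichtenbaum, Quillen, Harder, Geisser), the groups are finitely generated for the trilinear hypersurfaces
with a block of at most three variables and for the systems of bilinear equations with at most three variables
in one block or at most three equations, of any dimension.

The equivalence with trilinear forms is a theorem of the starting files for all properties with the closure
properties of `T.Fin` (`Pool.Agent.Z125.UN.dim_tri`).
-/

namespace Pool.Agent.Results.MP_cb388a_ag.BoundedDimension

open Pool.Agent.Y116.UV Pool.Agent.P8H64.GH Pool.Agent.P8H64.GH.Wet

/-- Let `k` be a finite field of characteristic `p`, and `Λ = ℤ[1/p]`. For every `d` the following are equivalent: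
the groups `H_i^W(X, Λ(j))` are finitely generated `Λ`-modules, for all `i` and `j`, for all separated schemes `X`
of finite type over `k` of dimension at most `d`; the same for the smooth ones; the same for the hypersurfaces
`T(x, y, z) = 1` with `d + 2` variables `z`; the same for the hypersurfaces `T(x, y, z) = 1` in which one of the
three blocks has at most `d + 2` variables. If they are true, the same is true for all systems of bilinear
equations with at most `d + 2` variables in one of the two blocks or at most `d + 2` equations. All this is
true for `d = 1`. -/
theorem result (p : ℕ) (k : Type) [Field k] [Finite k] [CharP k p]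
    (T : WThy k (Localization.Away (p : ℤ))) :
    (∀ d : ℕ, List.TFAE [DimAll k True T.Fin d, DimSmooth k True T.Fin d, ForTri k T.Fin (d + 2),
      ForBlock k T.Fin (d + 2)] ∧ (DimAll k True T.Fin d → ForBil k T.Fin (d + 2))) ∧
    ForBlock k T.Fin 3 ∧ ForBil k T.Fin 3 := by
  have : IsNoetherianRing (Localization.Away (p : ℤ)) :=
    IsLocalization.isNoetherianRing (Submonoid.powers (p : ℤ)) _ inferInstance
  have h1 := dim_one T
  have h2 := ((dims T 1).1.out 0 3 : DimAll k True T.Fin 1 ↔ ForBlock k T.Fin (1 + 2)).1 h1
  exact ⟨fun d => dims T d, h2, (dims T 1).2 h1⟩

end Pool.Agent.Results.MP_cb388a_ag.BoundedDimension
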