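import Pool.Agent.P8H64.GH.Wet

set_option autoImplicit false

/-!
# Finite generation of Weil-étale motivic cohomology and graph hypersurfaces (MP_cb388a_ag, Q1)

Definitions: `lap` (the reduced weighted Laplacian), `kirchhoff`, `sparseDet`, `ConeSplit` are in
`Pool/Agent/P8H64/GH/Graph.lean`; `GLRing`, `CRing`, `HRing` in `Pool/Agent/P8H64/GH/Main.lean`; `ForAll`,
`ForSmooth`, `ForSparse`, `ForCompl`, `ForConeCompl`, `ForHyp`, `ForConeHyp` in `Pool/Agent/P8H64/GH/Tfae.lean`;
`WThy` (Weil-étale motivic Borel-Moore homology, with the known properties which are used) and `WThy.Fin` in
`Pool/Agent/P8H64/GH/Wet.lean`.

`T.Fin X` says that all groups `H_i^W(X, ℤ[1/p](j))` are finitely generated over `ℤ[1/p]`. For smooth projective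
`X` these are the groups `H^i_W(X, ℤ(n)) ⊗ ℤ[1/p]` of the question, so the statements 1-7 contain Lichtenbaum's
conjecture `L^n(X)` for all smooth projective `X` over `𝔽_p`, up to `p`-torsion phenomena; by the theorem of
Geisser they are equivalent to it (both are equivalent to the conjectures of Tate and Beilinson with
semisimplicity for all smooth projective varieties over `𝔽_p`). A variety over a finite extension of `𝔽_p` can be
considered over `𝔽_p`; this does not change its Weil-étale cohomology.

Proof. `T.Fin` is closed under closed-open decompositions, it passes to Jouanolou's affine bundles and back,
and from `X × 𝔾_m` to `X`. The theorem holds for all properties of this kind.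

1. (`glgood_of_split`, `graphBij`) The complement of the graph hypersurface of a cone over a split graph is
  the space of the invertible symmetric matrices `[[A, X], [Xᵗ, Δ]]`, with `A` arbitrary, `Δ` diagonal, and
  `X` with prescribed zeros. If the property is true for these, it is true for those with `Δ = 0`, by
  induction on the number of the zeros of `Δ`: where the entry `δ` of `Δ` is a unit, the column of `δ` can be
  cleared, which changes only `A`. For `Δ = 0` and `X` square the matrix is invertible iff `X` is invertible.
  This gives the schemes `GL_S` of the invertible matrices with prescribed zeros.
2. (`good_pat`) The same for the invertible matrices with prescribed zeros and with ones at the places of a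
  forest, as these are the quotient of the open part where the entries are units by a torus.
3. (`good_vanish`) Let `Q` be a matrix of linear forms as in 2. Bordering `Q` by one row and one column of
  new variables one obtains the locus where `Q` is invertible and a given entry of the adjugate of `Q`
  vanishes, and several such equations, if they are imposed one after the other, by the bundle
  `∑ c_t y_t = 1` over the complement of `c = 0`.
4. (`good_vw`, `good_bil`) With 3 one obtains the spaces of the pairs `(V, W)` of matrices with prescribed
  zeros and with ones on forests such that `V W` has prescribed zeros, and every system of bilinear equations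
  `∑ T_{ijl} x_i y_j = 0` with coefficients zero and one is such a space. These systems generate all schemes of
  finite type over `ℤ/p` (`clo_universal`).
-/

namespace Pool.Agent.Results.MP_cb388a_ag.GraphHypersurfaces

open Pool.Agent.Y116.UV Pool.Agent.P8H64.GH Pool.Agent.P8H64.GH.Wet

/-- Let `Λ = ℤ[1/p]`. The following statements are equivalent: the groups `H_i^W(X, Λ(j))` are finitely generated
`Λ`-modules for all `i` and `j`

1. for all separated schemes `X` of finite type over `ℤ/p`;
2. for all smooth ones;
3. for the schemes `GL_S` of the invertible matrices over `ℤ/p` with zeros outside of `S`, for all finite sets `S`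
  of places;
4. for the complements of the graph hypersurfaces of all graphs;
5. the same for the cones over split graphs;
6. for the graph hypersurfaces of all graphs;
7. the same for the cones over split graphs. -/
theorem result {p : ℕ} [Fact p.Prime] (T : WThy (ZMod p) (Localization.Away (p : ℤ))) :
    List.TFAE [ForAll (ZMod p) True T.Fin, ForSmooth (ZMod p) True T.Fin, ForSparse (ZMod p) T.Fin,
      ForCompl (ZMod p) T.Fin, ForConeCompl (ZMod p) T.Fin, ForHyp (ZMod p) T.Fin,
      ForConeHyp (ZMod p) T.Fin] := by
  have : IsNoetherianRing (Localization.Away (p : ℤ)) :=
    IsLocalization.isNoetherianRing (Submonoid.powers (p : ℤ)) _ inferInstance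
  exact main T

end Pool.Agent.Results.MP_cb388a_ag.GraphHypersurfaces
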