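import Pool.Agent.P8H27.RF.TB
import Pool.Agent.TH117.GN.WeilEtaleDefs

/-!
# Finite generation of Weil-étale motivic cohomology for varieties over finite fields generated by
abelian varieties whose traces of Frobenius lie in a totally real Galois field with at most two
primes above `p`

Let `L` be a totally real number field, Galois over `ℚ`, with at most two prime ideals above the
prime number `p`: for instance `ℚ`, any real quadratic field, a field in which `p` is inert or
totally ramified, or the maximal real subfield of `ℚ(ζ_N)` if `p` and `-1` generate a subgroup of
index at most two of the group of units modulo `N`.

Over an algebraic closure of the field with `p` elements each abelian variety is isogenous to the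
reduction of an abelian variety of CM type (Honda, Tate). So an abelian variety over the field with
`p ^ a` elements is modelled by `RedAV`: a finite product of CM types `(E i, Φ i)` with Weil numbers
`π i ∈ E i` that satisfy the formula of Shimura and Taniyama; its cohomology of degree `n`, with
coefficients in an algebraically closed field `Ω`, consists of the alternating `n`-forms on
`Ω ⊗ H_1`, on which the Frobenius endomorphism acts by `π`.

We consider all abelian varieties `Y` over finite fields of characteristic `p` such that, up to
supersingular factors, the traces `π ^ s + (q / π) ^ s` of a power of Frobenius lie in `L`
(`HasTracesIn`), and that are ordinary up to the supersingular factors, or more generally have equal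
slopes (up to duality, at each place) for Frobenius eigenvalues that generate the same quadratic
extension of `L` (`EqualSlopes`). The CM fields of `Y` are arbitrary CM fields whose maximal real
subfields have embeddings in `L` (in general there are infinitely many), and the dimension of `Y` is
arbitrary. Examples are all products of elliptic curves (`L = ℚ`), all products of elliptic curves
and of ordinary abelian surfaces with real multiplication by a given real quadratic field `L`, and
products of Jacobians of Kloosterman curves `y ^ p - y = x + a / x`, `p ≠ 2` (`L = ℚ(ζ_p)⁺`).

`Homology Ω V` are data of motivic homology `M X i j = H_i^M(X, ℚ(j)) = CH_j(X, i - 2 j) ⊗ ℚ` and of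
`ℓ`-adic homology `E X i j = H_i(X, ℚ_ℓ(j))` (coefficients extended to `Ω`) of schemes `X` of finite
type over a finite field (the elements of `V`), with the Frobenius and the regulator. The class
`Generated` contains the abelian varieties above, it contains the schemes whose motives are direct
summands of finite sums of twists of motives of members, and it contains all of `Z`, `X`,
`U = X ∖ Z` if it contains two of them.

**Theorem.** For all smooth projective varieties `X` (the property `S`) of this class and all `n` and
`i` the Weil-étale motivic cohomology group `W X n i = H^i_W(X, ℤ(n))` is finitely generated.

We use the theorem of Geisser and Kahn (`IsWeilEtale`) that these groups are finitely generated if for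
`X` the conjecture of Tate and Beilinson `TB` holds (for all degrees and twists). Properties of the
theory of cycles on abelian varieties that are used (`IsChow`, `IsMotivic`): Poincaré duality, the
formal properties of correspondences, the nilpotence of homologically trivial correspondences
(Kimura), the operation of the Frobenius endomorphism on higher Chow groups, the vanishing of the
higher rational `K`-groups of a finite field (Quillen), and the algebraicity of the classes in `Alg`
(of which only products of classes of divisors matter here, theorem of Tate). The passage from the
Tate conjecture to all degrees and to the class `Generated` is due to Soulé, Geisser, Kahn and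
Jannsen; it was formalized in the starting files. New is the theorem that the Tate classes on the
abelian varieties `Y` are generated by the Tate classes of degree two (`tate_alg`).
-/

namespace Pool.Agent.Results.MP_cb388a_ag.TracesInRealField

open NumberField Pool.Agent.W495.TA Pool.Agent.W495.FM Pool.Agent.P8H27.RF

open Pool.Agent.TH117.GN (IsWeilEtale)

/-- **The Weil-étale motivic cohomology groups of all smooth projective varieties generated by
abelian varieties with traces in `L` are finitely generated.** -/
theorem result (p : ℕ) [Fact p.Prime] (ν : PadicAlgCl p ≃+* ℂ) (L : Type) [Field L] [NumberField L]
    [IsTotallyReal L] [IsGalois ℚ L] (hL : numPrimes p L ≤ 2) (Ω : Type) [Field Ω]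
    [IsAlgClosed Ω] [CharZero Ω] (V : Type) (T : Homology Ω V) (hT : IsHomology T) (S : V → Prop)
    (W : V → ℤ → ℤ → Type) [∀ X n i, AddCommGroup (W X n i)] (hW : IsWeilEtale T S W) (X : V)
    (hS : S X) (hX : Generated T (IsTracesAbelian p ν L T) X) (n i : ℤ) :
    AddGroup.FG (W X n i) :=
  hW X hS (tb_traces hL hT hX) n i

end Pool.Agent.Results.MP_cb388a_ag.TracesInRealField
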