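import Pool.Agent.P8H27.WE.Thms

/-!
# Finite generation of the Weil-étale motivic cohomology of products of varieties with uncorrelated
# slopes

Let `q = p ^ m`. Let `X` be a smooth projective variety over the field with `q` elements, whose motive is
finite-dimensional in the sense of Kimura (`IsVariety`) and which satisfies the Tate conjecture
(`HasTate`: Frobenius is semisimple, all Tate classes are algebraic). For example `X` may be any
abelian variety of dimension at most three, any product of elliptic curves, any abelian variety
without exotic Tate classes or for which the exotic Tate classes are known to be algebraic, or a
product of curves with such a Jacobian variety. Let `S` be a set of Weil numbers such that the eigenvalues of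
Frobenius on the cohomology of `X` are products of numbers in `S` (`HasEigenvaluesIn`; for an abelian variety
the eigenvalues on `H^1`). If an eigenvalue is a power of `q` up to a root of unity then it is assumed to
be a power of `q`; this is so over some finite extension of the ground field.

Let `Z` be an **arbitrary** smooth projective variety of dimension `d` over this field, such that the
eigenvalues of Frobenius on its cohomology are uncorrelated with `S` (`HasUncorrelatedRoots`,
`IsUncorrelated`): they are products of Weil numbers `β` with

  `∑ (2 v(τ α) - u) (2 v(τ β) - w) = 0`    for all `α ∈ S`

(`Uncorrelated`), where `u` and `w` are the weights of `α` and `β`, the sum is over all embeddings `τ` of the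
field `ℚ(α, β)` in an algebraic closure of `ℚ_p`, and `v` is the valuation with `v(q) = 1`; and they are not
odd powers of `√q` up to roots of unity, if there are such eigenvalues for `X`. This is satisfied for
instance if the fields `ℚ(α)` and `ℚ(β)` are linearly disjoint (and `X` or `Z` has no odd supersingular
part).

`L^j(Y)` is the assertion of the question for `Y` in weight `j`: the groups `H^i_W(Y, ℤ(j))` are finitely
generated for all `i` (`AllFG`).

**Theorem** (`WeilEtaleTimes`).

* `L^j(X × Z)` and `L^(dim X + d - j)(X × Z)` hold **if and only if** `L^(j - k)(Z)` and
  `L^(d - (j - k))(Z)` hold for all `0 ≤ k ≤ dim X`.
* All groups `H^i_W(X × Z, ℤ(j))` are finitely generated **if and only if** all groups `H^i_W(Z, ℤ(j))` are.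

For example `Z` can be any curve, or any variety with a finite-dimensional motive and the Tate
conjecture; then the theorem answers the question for `X × Z`, and for all products of this kind with
more factors. But nothing is assumed about `Z`: the theorem says that the products with `X` are
neither harder nor easier than `Z`.

What is used (`GeisserTheorem`, `KN`, `KM`): for a smooth projective variety `Y` of dimension `e` the
assertion `L^j(Y)` implies `K^j(Y)`, and `K^j(Y)` and `K^(e - j)(Y)` imply `L^j(Y)` (Geisser), where
`K^j(Y)` says that in weight `j` the regulators from rational motivic cohomology, with coefficients
`ℚ_ℓ`, to `ℓ`-adic cohomology are isomorphisms onto the Frobenius invariants, in all degrees, and that the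
eigenvalue one of Frobenius is semisimple. (For the two complementary weights together it is enough to
consider one `ℓ`, by Tate.) On the theories relative to `Z`: the formal properties of correspondences,
products and push-forwards (`IsRel`, `PushFrobenius`); the Frobenius endomorphism of `X × Z` acts on
the motivic cohomology in weight `j` as `q ^ j` (`IsPure`); and on the motivic and the `ℓ`-adic cohomology of
`X × Z` the Frobenius of `Z` satisfies in each bidegree a nonzero polynomial with the roots described
above, which for motivic cohomology follows if the motive of `Z` is finite-dimensional.

The proof. Let `α` be an eigenvalue for `X` and `ρ` one for `Z` with `α ρ = q ^ c`. The functions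
`g ↦ 2 v(g α) - u` and `g ↦ 2 v(g ρ) - w` on the Galois group of a large number field have the sum zero and, by
the hypothesis, are orthogonal, so both are zero; hence `α` is a power of `q` and its eigenvectors are
algebraic by the Tate conjecture for `X`. So there are cycles `D t` on `X` such that the motivic
cohomology of `X × Z` and the Frobenius invariants (Künneth formula) are the sums of the products of the `D t`
with those of `Z`. The semisimplicity is obtained from the push-forwards with the dual cycles.
-/

namespace Pool.Agent.Results.MP_cb388a_ag.UncorrelatedProducts

open Pool.Agent.P8H27.WE

/-- **Finite generation of Weil-étale motivic cohomology for the products `X × Z`** is equivalent to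
finite generation for `Z`, if `X` satisfies the Tate conjecture and the slopes of `X` and `Z` are
uncorrelated. -/
theorem result {p m : ℕ} [Fact p.Prime] (hm : 0 < m) : WeilEtaleTimes p m :=
  weilEtaleTimes hm

end Pool.Agent.Results.MP_cb388a_ag.UncorrelatedProducts
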